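import Pool.Agent.Run7.h91.SP.Main

/-!
# Zeros of the L-functions of elliptic curves over abelian fields and the completely split primes, sampled geometrically

Let `E : y² = x³ + a x + b` be an elliptic curve over `ℚ` of conductor `N`, `K` an abelian number field of conductor
prime to `N` (given by its group `G` of Dirichlet characters, `[K : ℚ] = card G`), `Λ(s) = Λ(E/K, s)` the completed
L-function of `E` over `K`, and

  `S(x) = x ∑_p a_p log p / (p² + x²)`,   `p` prime, split completely in `K`, `p ∤ 2 (4a³ + 27b²)`.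

Fix ANY real `q > 1` and any lengths `ℓ(J)` with `ℓ(J) ≥ J^(1 - δ)` for every `δ > 0` and all large `J`, for example
`ℓ(J) = J / log J`. We prove unconditionally:

* (large values in every window) if `ρ` is a zero of `Λ(E/K, s)` off the line `Re s = 1`, then for every `ε > 0` EVERY
  window `[J, J + ℓ(J)]`, `J` large, contains an integer `n` with `|S(q^n)| ≥ (q^n)^(|Re ρ - 1| - ε)`;
* (recovery from windows) all zeros lie in `|Re s - 1| ≤ θ` if and only if for every `ε > 0` there are arbitrarily large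
  `J` such that `|S(q^n)| ≤ (q^n)^(θ + ε)` for all `n` in `[J, J + ℓ(J)]`. For `θ = 0` this is the Riemann hypothesis
  for `L(E/K, s)`;
* (upper bound) if all zeros lie in `|Re s - 1| ≤ θ`, then `S(x) = O(x^(θ + ε))` for every `ε > 0`.

So the Riemann hypothesis for `L(E/K, s)` is decided by the completely split primes only, through the values of ONE
smooth sum at the points `q^n` of a fixed geometric progression, and of these points only those with `n` in arbitrarily
late and arbitrarily rare windows of length `J^(1 - o(1))`. Note that `Λ(E/K, s)` may have multiple zeros, and that at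
the points `q^n` the zeros `ρ` and `ρ + 2π i k / log q` cannot be told apart by their powers.

Proof (modules `Pool.Agent.Run7.h91.SP`). The explicit formula with the kernel `π / (2 cos(π z / 2))`; a linear
combination of the sampled values in a window, whose coefficients come from a partial fraction identity, isolates one
residue class modulo `2π i / log q` among the zeros with real part at least `1 + β - ε` up to height `O(J)`; there are
only `O(J^(1 - κ))` of them by the density theorem for these L-functions of the starting tree (helper24, helper671,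
helper771, helper838; ZeroDensityAbelian), applied to the family and to the conjugate family. The total coefficient of a
residue class, counted with the multiplicities of the zeros, is not zero, since `π / (2 cos(π z / 2))` has positive real
part for `|Re z| < 1`.
-/

set_option autoImplicit false

open Complex UpperHalfPlane MatrixGroups CongruenceSubgroup Filter
open scoped ComplexConjugate

namespace Pool.Agent.Results.MP_fb225e_nt.GeometricSampling

/-- The coefficient `a_p` of `E : y² = x³ + a x + b` at a prime `p ∤ 2 (4a³ + 27b²)`: `p` minus the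
number of pairs `(x, y)` modulo `p` with `y² ≡ x³ + a x + b (mod p)`. -/
noncomputable def ap (a b : ℤ) (p : ℕ) : ℤ :=
  (p : ℤ) - (((Finset.range p ×ˢ Finset.range p).filter
    (fun xy : ℕ × ℕ => (p : ℤ) ∣ (xy.2 : ℤ) ^ 2 -
      ((xy.1 : ℤ) ^ 3 + a * (xy.1 : ℤ) + b))).card : ℤ)

/-- The `n`-th Fourier coefficient of `f`. -/
noncomputable def coef {N : ℕ} (f : CuspForm (Gamma0 N : Subgroup (GL (Fin 2) ℝ)) 2) (n : ℕ) : ℂ :=
  (qExpansion 1 f).coeff n

/-- `f ∈ S_2(Γ₀(N))` is the newform of the elliptic curve `E : y² = x³ + a x + b` of conductor `N` and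
root number `w`: the Fourier coefficients `c(n)` of `f` are real with `c(1) = 1`, they satisfy the
Hecke relations `c(mn) = c(m) c(n)` for coprime `m`, `n` and `c(p^(j+2)) = c(p) c(p^(j+1)) - p c(p^j)`
(without the last term if `p ∣ N`), `f(-1/(Nτ)) = -w N τ² f(τ)`, `c(p) = a_p(E)` for all primes
`p ∤ 2 (4a³ + 27b²)`, `|c(p)| ≤ 2 √p` for all `p ∤ N` (Hasse) and `c(p) = 0, 1, -1` for `p ∣ N`.
By the modularity theorem (Wiles, Taylor-Wiles, Breuil-Conrad-Diamond-Taylor) it exists for every `E`. -/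
structure IsFormOf (a b : ℤ) (N : ℕ) (f : CuspForm (Gamma0 N : Subgroup (GL (Fin 2) ℝ)) 2) (w : ℝ) :
    Prop where
  one : coef f 1 = 1
  real : ∀ n, (coef f n).im = 0
  mul : ∀ m n : ℕ, Nat.Coprime m n → coef f (m * n) = coef f m * coef f n
  pow : ∀ p j : ℕ, p.Prime → coef f (p ^ (j + 2)) = coef f p * coef f (p ^ (j + 1)) -
      (if p ∣ N then 0 else (p : ℂ) * coef f (p ^ j))
  sign : w = 1 ∨ w = -1
  fricke : ∀ τ τ' : ℍ, (τ' : ℂ) * ((N : ℂ) * (τ : ℂ)) = -1 →
    f τ' = -(w : ℂ) * (N : ℂ) * (τ : ℂ) ^ 2 * f τ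
  points : ∀ p : ℕ, p.Prime → ¬ (p : ℤ) ∣ 2 * (4 * a ^ 3 + 27 * b ^ 2) → coef f p = (ap a b p : ℂ)
  good : ∀ p : ℕ, p.Prime → ¬ p ∣ N → ‖coef f p‖ ≤ 2 * Real.sqrt p
  bad : ∀ p : ℕ, p.Prime → p ∣ N → coef f p = 0 ∨ coef f p = 1 ∨ coef f p = -1

/-- The completed L-function of the twist of `E` by `χ` modulo `q`, for `Re s > 3/2`:
`(√N q / 2π)^s Γ(s) ∑ c(n) χ(n) n^(-s)`. -/
noncomputable def twist {N : ℕ} (f : CuspForm (Gamma0 N : Subgroup (GL (Fin 2) ℝ)) 2) {q : ℕ}
    (χ : DirichletCharacter ℂ q) (s : ℂ) : ℂ :=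
  ((Real.sqrt N * q / (2 * Real.pi) : ℝ) : ℂ) ^ s * Complex.Gamma s *
    ∑' n : ℕ, coef f (n + 1) * χ ((n + 1 : ℕ) : ZMod q) * ((n + 1 : ℕ) : ℂ) ^ (-s)

/-- `Λ = Λ(E/K, s)`, where `K` is the abelian number field with the group `G` of Dirichlet
characters: `Λ` is entire and, for `Re s > 3/2`, it is the product over `χ` in `G` of the completed
L-functions of the twists of `E` by the primitive character associated with `χ`. -/
def IsCompleted {M : ℕ} (G : Subgroup (DirichletCharacter ℂ M)) [Fintype G] {N : ℕ}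
    (f : CuspForm (Gamma0 N : Subgroup (GL (Fin 2) ℝ)) 2) (Λ : ℂ → ℂ) : Prop :=
  Differentiable ℂ Λ ∧ ∀ s : ℂ, 3 / 2 < s.re →
    Λ s = ∏ χ : G, twist f (χ : DirichletCharacter ℂ M).primitiveCharacter s

/-- `p` is a prime, `p ∤ 2 (4a³ + 27b²)`, and `χ(p) = 1` for all `χ` in `G` (these are the primes that do not divide
`2 (4a³ + 27b²) M` and split completely in the field `K`) -/
def Splits {M : ℕ} (G : Subgroup (DirichletCharacter ℂ M)) (a b : ℤ) (p : ℕ) : Prop :=
  p.Prime ∧ ¬ (p : ℤ) ∣ 2 * (4 * a ^ 3 + 27 * b ^ 2) ∧ ∀ χ ∈ G, χ (p : ZMod M) = 1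

open Classical in
/-- `S(x) = x ∑_p a_p log p / (p² + x²)`, the sum over the completely split primes -/
noncomputable def S {M : ℕ} (G : Subgroup (DirichletCharacter ℂ M)) (a b : ℤ) (x : ℝ) : ℝ :=
  x * ∑' p : ℕ, if Splits G a b p then (ap a b p : ℝ) * Real.log p / ((p : ℝ) ^ 2 + x ^ 2) else 0

/-- the windows `[J, J + ℓ J]` have length at least `J^(1 - o(1))` -/
def Long (ℓ : ℕ → ℕ) : Prop := ∀ δ : ℝ, 0 < δ → ∀ᶠ J : ℕ in atTop, (J : ℝ) ^ (1 - δ) ≤ ℓ J

/-- **Main theorem.** Let `E : y² = x³ + a x + b` be an elliptic curve over `ℚ` with newform `f` of level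
`N`, and let `K` be an abelian number field of conductor prime to `N`, given by its group `G` of Dirichlet
characters modulo `M`.  Then `Λ(s) = Λ(E/K, s)` exists, is unique and has a functional equation. Let
`S(x) = x ∑_p a_p log p / (p² + x²)` over the completely split primes `p`, let `q > 1` be real and let the windows
`[J, J + ℓ(J)]` have length `≥ J^(1 - o(1))`. For every zero `ρ` off the line `Re s = 1` and `ε > 0`, every window
with `J` large contains `n` with `|S(q^n)| ≥ (q^n)^(|Re ρ - 1| - ε)`. For `θ ≥ 0`, all zeros lie in `|Re s - 1| ≤ θ`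
if and only if for every `ε > 0` there are arbitrarily large `J` with `|S(q^n)| ≤ (q^n)^(θ + ε)` for all `n` in
`[J, J + ℓ(J)]`; in that case `S(x) = O(x^(θ + ε))`. -/
theorem result : ∀ (a b : ℤ) (N : ℕ) [NeZero N] (f : CuspForm (Gamma0 N : Subgroup (GL (Fin 2) ℝ)) 2) (w : ℝ),
    4 * a ^ 3 + 27 * b ^ 2 ≠ 0 → IsFormOf a b N f w →
    ∀ (M : ℕ) [NeZero M] (G : Subgroup (DirichletCharacter ℂ M)) [Fintype G], Nat.Coprime M N →
    ∃ Λ : ℂ → ℂ, IsCompleted G f Λ ∧ (∀ Λ' : ℂ → ℂ, IsCompleted G f Λ' → Λ' = Λ) ∧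
      (∃ W : ℂ, ‖W‖ = 1 ∧ ∀ s : ℂ, Λ (2 - s) = W * conj (Λ (conj s))) ∧
      (∀ (q : ℝ) (ℓ : ℕ → ℕ), 1 < q → Long ℓ →
        (∀ ρ : ℂ, Λ ρ = 0 → ∀ ε : ℝ, 0 < ε → ε < |ρ.re - 1| → ∀ᶠ J : ℕ in atTop,
          ∃ n : ℕ, J ≤ n ∧ n ≤ J + ℓ J ∧ (q ^ n) ^ (|ρ.re - 1| - ε) ≤ |S G a b (q ^ n)|) ∧
        (∀ θ : ℝ, 0 ≤ θ →
          ((∀ s : ℂ, Λ s = 0 → |s.re - 1| ≤ θ) ↔
            ∀ ε : ℝ, 0 < ε → ∃ᶠ J : ℕ in atTop, ∀ n : ℕ, J ≤ n → n ≤ J + ℓ J →
              |S G a b (q ^ n)| ≤ (q ^ n) ^ (θ + ε)))) ∧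
      (∀ θ : ℝ, 0 ≤ θ → (∀ s : ℂ, Λ s = 0 → |s.re - 1| ≤ θ) → ∀ ε : ℝ, 0 < ε →
        ∃ C : ℝ, 0 < C ∧ ∀ x : ℝ, 1 ≤ x → |S G a b x| ≤ C * x ^ (θ + ε)) := by
  intro a b N _ f w h27 hf M _ G _ hco
  classical
  have hf' : Pool.Agent.W169.HF.IsForm N f w :=
    { one := hf.one
      real := hf.real
      mul := hf.mul
      pow := hf.pow
      sign := hf.sign
      fricke := hf.fricke
      good := hf.good
      bad := fun p hp hpN => by
        have h1 : (1 : ℝ) ≤ Real.sqrt p := by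
          rw [Real.one_le_sqrt]
          exact_mod_cast hp.one_le
        have h2 : ‖coef f p‖ ≤ 1 := by
          rcases hf.bad p hp hpN with h | h | h <;> simp [h]
        exact h2.trans h1 }
  have : ∀ i : G, NeZero ((i : DirichletCharacter ℂ M).conductor) :=
    fun i => ⟨DirichletCharacter.conductor_ne_zero _⟩
  obtain ⟨X, v, c, hX⟩ := Pool.Agent.Run7.h91.SP.exists_fam (ι := G) (fun i => (i : DirichletCharacter ℂ M).conductor)
    (fun i => (i : DirichletCharacter ℂ M).primitiveCharacter)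
    (fun i => DirichletCharacter.primitiveCharacter_isPrimitive _) (fun i => Pool.Agent.W355.UN.coprime_cond hco _) hf'
  obtain ⟨X2, v2, c2, hX2⟩ := Pool.Agent.Run7.h91.SP.exists_fam (ι := G)
    (fun i => (i : DirichletCharacter ℂ M).conductor)
    (fun i => ((i : DirichletCharacter ℂ M).primitiveCharacter)⁻¹)
    (fun i => by
      rw [DirichletCharacter.isPrimitive_def, DirichletCharacter.conductor_inv]
      exact (DirichletCharacter.isPrimitive_def _).1 (DirichletCharacter.primitiveCharacter_isPrimitive _))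
    (fun i => Pool.Agent.W355.UN.coprime_cond hco _) hf'
  obtain ⟨Λ, h1, h2, h3, -⟩ := Pool.Agent.R838.TW.exists_Lam hX.pl 1 (G := Pool.Agent.W355.UN.prodE G f) hX.hv
    (σ := 3 / 2) (fun s hs => by rw [Complex.ofReal_one]; exact hX.eq s hs)
  have hΛX : ∀ s, Λ s = 0 ↔ X (s - 1) = 0 := by
    have e2 : Λ = fun s => v⁻¹ * X (s - 1) := by
      refine Pool.Agent.R838.TW.uniq (G := Pool.Agent.W355.UN.prodE G f) ?_ h1 ⟨3 / 2, fun s hs => ?_⟩ ⟨3 / 2, h2⟩
      · exact (hX.pl.diff.comp (by fun_prop)).const_mul _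
      · have h3 := hX.eq s hs
        rw [h3, inv_mul_cancel_left₀ hX.hv]
        rfl
    intro s
    rw [e2]
    beta_reduce
    rw [mul_eq_zero, or_iff_right (inv_ne_zero hX.hv)]
  have hprim : ∀ p : ℕ, Nat.Coprime p M → ∀ i : G,
      (i : DirichletCharacter ℂ M).primitiveCharacter (p : ZMod (i : DirichletCharacter ℂ M).conductor) =
        (i : DirichletCharacter ℂ M) (p : ZMod M) := by
    intro p hp i
    have h4 := DirichletCharacter.primitiveCharacter_apply_of_isCoprime (i : DirichletCharacter ℂ M)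
      (Nat.isCoprime_iff_coprime.2 hp)
    simpa using h4
  have hD : (2 * (4 * a ^ 3 + 27 * b ^ 2)).natAbs * M ≠ 0 := by
    refine mul_ne_zero ?_ (NeZero.ne M)
    rw [Int.natAbs_ne_zero]
    exact mul_ne_zero two_ne_zero h27
  have hg : ∀ n : ℕ, Splits G a b n → n.Prime := fun n h => h.1
  have hg1 : ∀ p : ℕ, Splits G a b p →
      Pool.Agent.W169.HF.coef f p = (((ap a b p : ℝ) : ℝ) : ℂ) := fun p h => by
    have h1 := hf.points p h.1 h.2.1
    rw [Complex.ofReal_intCast]
    exact h1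
  have hcop : ∀ p : ℕ, Splits G a b p → Nat.Coprime p M := by
    intro p hp
    have h4 := hp.2.2 1 (Subgroup.one_mem G)
    have h5 : IsUnit (p : ZMod M) := by
      by_contra h6
      rw [MulChar.map_nonunit _ h6] at h4
      exact zero_ne_one h4
    exact (ZMod.isUnit_iff_coprime p M).1 h5
  have hg1' : ∀ p : ℕ, Splits G a b p →
      ∑ i : G, (i : DirichletCharacter ℂ M).primitiveCharacter (p : ZMod (i : DirichletCharacter ℂ M).conductor) =
        (Fintype.card G : ℂ) := by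
    intro p hp
    rw [Finset.sum_congr rfl fun i _ => (hprim p (hcop p hp) i).trans (hp.2.2 i i.2), Finset.sum_const,
      Finset.card_univ, nsmul_eq_mul, mul_one]
  have hg2 : ∀ p : ℕ, p.Prime → ¬ p ∣ (2 * (4 * a ^ 3 + 27 * b ^ 2)).natAbs * M → ¬ Splits G a b p →
      ∑ i : G, (i : DirichletCharacter ℂ M).primitiveCharacter (p : ZMod (i : DirichletCharacter ℂ M).conductor) =
        0 := by
    intro p hp h4 h5
    have h6 : ¬ (p : ℤ) ∣ 2 * (4 * a ^ 3 + 27 * b ^ 2) := fun h =>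
      h4 (Dvd.dvd.mul_right (Int.natCast_dvd.1 h) _)
    have h7 : Nat.Coprime p M := (Nat.Prime.coprime_iff_not_dvd hp).2 fun h => h4 (Dvd.dvd.mul_left h _)
    obtain ⟨χ0, hχ0, h8⟩ : ∃ χ ∈ G, χ (p : ZMod M) ≠ 1 := by
      by_contra h
      push Not at h
      exact h5 ⟨hp, h6, h⟩
    rw [Finset.sum_congr rfl fun i _ => hprim p h7 i]
    have h9 : ∑ i : G, (i : DirichletCharacter ℂ M) (p : ZMod M) =
        χ0 (p : ZMod M) * ∑ i : G, (i : DirichletCharacter ℂ M) (p : ZMod M) := by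
      rw [Finset.mul_sum]
      refine (Fintype.sum_equiv (Equiv.mulLeft (⟨χ0, hχ0⟩ : G)) _ _ fun i => ?_).symm
      rw [Equiv.coe_mulLeft, Subgroup.coe_mul, MulChar.mul_apply]
    have h10 : (1 - χ0 (p : ZMod M)) * ∑ i : G, (i : DirichletCharacter ℂ M) (p : ZMod M) = 0 := by
      linear_combination h9
    rcases mul_eq_zero.1 h10 with h11 | h11
    · exact absurd (sub_eq_zero.1 h11).symm h8
    · exact h11
  refine ⟨Λ, ⟨h1, h2⟩, fun Λ' h' => Pool.Agent.R838.TW.uniq h1 h'.1 ⟨3 / 2, h2⟩ ⟨3 / 2, h'.2⟩, ?_,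
    fun q ℓ hq hℓ => ⟨?_, ?_⟩, ?_⟩
  · obtain ⟨W, hW, h7⟩ := h3
    refine ⟨W, hW, fun s => ?_⟩
    have h8 := h7 s
    rwa [Complex.ofReal_one, mul_one] at h8
  · intro ρ hρ ε hε hερ
    exact hX.lower hf' hX2 hD hg hg1 hg1' hg2 hΛX hq hℓ hρ hε hερ
  · intro θ hθ
    exact hX.equiv hf' hX2 hD hg hg1 hg1' hg2 hΛX hq hℓ hθ
  · intro θ hθ hz ε hε
    exact hX.upper hD hg hg1 hg1' hg2 hΛX hθ hz hε

end Pool.Agent.Results.MP_fb225e_nt.GeometricSampling
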