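import Pool.Agent.Run7.h114.CA.KF
import Pool.Agent.Run7.h114.CA.AB3
import Pool.Agent.TH839.UH.ECK

set_option autoImplicit false
set_option maxHeartbeats 2000000

/-!
# MP_fb225e_nt: entire functions with all zeros simple and on the line, built from the primes of norm at most `e^(2 r)`,
# which converge to `L(E/K, s)` if and only if the Riemann hypothesis holds for it and its zeros are simple

Let `E` be an elliptic curve over a number field `K` of degree `d`, `L(s) = L(E/K, s)` its Hasse-Weil L-function,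
`Λ(s) = A^(s/2) ((2π)^(-s) Γ(s))^d L(s)` the completed function and `Ξ(z) = Λ(1 + i z)`.  We treat

* (`OverField`) all `E` over all number fields `K` with the properties conjectured by Hasse and Weil: `Λ` is entire, of
  finite order, and `Λ(2 - s) = ± Λ(s)`;
* (`OverAbelian`) all `E/ℚ` of conductor `N` over all abelian number fields `K` of conductor prime to `N` (given by their
  groups `G` of Dirichlet characters), in particular `K = ℚ`; here the continuation and the functional equation are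
  proved, so that for these the theorem is unconditional (given the newform of `E`).

The order of vanishing at `s = 1` is arbitrary.  For `r > 0` let `W r` be Weil's quadratic form of `L(E/K, s)` on the
functions supported in `[-r, r]`:

`W r g = (1/π) ∫ (log A / 2 + d (Re ψ(1 + i x) - log 2π)) |g^(x)|² dx
  - 2 Re ∑_{n ≤ e^(2 r)} t(n)/n ∫ g(x + log n) conj g(x) dx`,

`ψ` the digamma function, `-L'/L(s) = ∑ t(n) n^(-s)`; it is determined by the conductor, by `d` and by the primes `v` of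
`K` of norm at most `e^(2 r)` and their numbers `a_v`; no zero of `Λ` enters.  Let `S` be any window (a compact set of real
numbers with `-S = S` and with an interior point) without zeros of `Ξ`; such windows exist.  We minimise `W r` relative to
the mass `∫_S |g^(t)|² dt`.

RESULT: for every `r > 0` the Fourier transforms of the minimisers are the multiples `p E_r` of one entire function `E_r`
by the polynomials `p` of degree less than `d_r`.  `E_r` is real on the real line, even or odd, and ALL ITS ZEROS ARE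
REAL AND SIMPLE.  The lowest quotient `low r` is at most `exp (-c e^(r/d))`, `c < 4 π d A^(-1/(2d))`, for large `r`; and
* the Riemann hypothesis for `L(E/K, s)` holds (all zeros of `Ξ` are real) if and only if `low r ≥ 0` for all `r`, if and
  only if `low r → 0`, if and only if `E_r(z) / E_r(i)` converges locally uniformly to a function that vanishes at the
  zeros of `Ξ`; otherwise `low r ≤ -exp (c e^(r/d) / r)` for some `c > 0` and all large `r`;
* the Riemann hypothesis holds and all zeros of `Λ` are simple if and only if `E_r(z) / E_r(i) → Ξ(z) / Ξ(i)` locally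
  uniformly;
* under the Riemann hypothesis the limit exists, it has simple zeros exactly at the zeros of `Ξ`, and in every disc the
  zeros of `E_r` correspond one to one to the distinct zeros of `Ξ`, up to `exp (-c e^(r/d))`, `c < 2 π d A^(-1/(2d))`; if
  moreover all zeros are simple then `low r > 0` and the minimiser is unique up to a factor for large `r`.
-/

namespace Pool.Agent.Results.MP_fb225e_nt.GroundStatesConverge

open Complex NumberField IsDedekindDomain MatrixGroups CongruenceSubgroup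
open UpperHalfPlane hiding I
open scoped ComplexConjugate
open Pool.Agent.Run7.h336.CB.S (Full Window RealZeros)
open Pool.Agent.Run7.h114.CA.TD (IsLogDer W)

/-- `M v` is, for every finite place `v`, an integral model of `E` with discriminant minimal at
`v`. -/
def MinimalModels {K : Type} [Field K] [NumberField K] (E : WeierstrassCurve K)
    (M : HeightOneSpectrum (𝓞 K) → WeierstrassCurve (𝓞 K)) : Prop :=
  ∀ v : HeightOneSpectrum (𝓞 K),
    (∃ C : WeierstrassCurve.VariableChange K, C • (M v).map (algebraMap (𝓞 K) K) = E) ∧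
    ∀ M' : WeierstrassCurve (𝓞 K),
      (∃ C : WeierstrassCurve.VariableChange K, C • M'.map (algebraMap (𝓞 K) K) = E) →
      ∀ n : ℕ, (M v).Δ ∈ v.asIdeal ^ n → M'.Δ ∈ v.asIdeal ^ n

open Classical in
/-- The Euler factor at `v`, `(1 - a_v Nv^{-s} + Nv^{1-2s})⁻¹` if the reduction at `v` is good and
`(1 - a_v Nv^{-s})⁻¹` if it is bad, where `a_v` is `Nv` minus the number of affine points of the
reduction of `M v`. -/
noncomputable def localFactor {K : Type} [Field K] [NumberField K]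
    (M : HeightOneSpectrum (𝓞 K) → WeierstrassCurve (𝓞 K)) (v : HeightOneSpectrum (𝓞 K))
    (s : ℂ) : ℂ :=
  (1 - ((Ideal.absNorm v.asIdeal : ℂ)
        - (Nat.card {xy : (𝓞 K ⧸ v.asIdeal) × (𝓞 K ⧸ v.asIdeal) //
            ((M v).map (Ideal.Quotient.mk v.asIdeal)).toAffine.Equation xy.1 xy.2} : ℂ))
        * (Ideal.absNorm v.asIdeal : ℂ) ^ (-s)
    + (if (M v).Δ ∈ v.asIdeal then 0 else (Ideal.absNorm v.asIdeal : ℂ))
        * (Ideal.absNorm v.asIdeal : ℂ) ^ (-2 * s))⁻¹

/-- The `L`-function `L(E/K, s)` in the half-plane of convergence, as the Euler product over all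
finite places. -/
noncomputable def EulerL {K : Type} [Field K] [NumberField K]
    (M : HeightOneSpectrum (𝓞 K) → WeierstrassCurve (𝓞 K)) (s : ℂ) : ℂ :=
  ∏' v : HeightOneSpectrum (𝓞 K), localFactor M v s

/-- `Λ` is the completed L-function `A^(s/2) ((2π)^(-s) Γ(s))^[K : ℚ] L(E/K, s)`, and it has the
properties conjectured by Hasse and Weil: it is entire, of finite order, and `Λ(s) = ± Λ(2 - s)`. -/
structure HasseWeil {K : Type} [Field K] [NumberField K]
    (M : HeightOneSpectrum (𝓞 K) → WeierstrassCurve (𝓞 K)) (A : ℝ) (Λ : ℂ → ℂ) : Prop where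
  one_le : 1 ≤ A
  entire : Differentiable ℂ Λ
  order : ∃ c ρ : ℝ, ∀ s : ℂ, ‖Λ s‖ ≤ Real.exp (c * (1 + ‖s‖) ^ ρ)
  fe : ∃ w : ℝ, (w = 1 ∨ w = -1) ∧ ∀ s : ℂ, Λ s = w * Λ (2 - s)
  eq : ∃ σ : ℝ, ∀ s : ℂ, σ ≤ s.re → Λ s = (A : ℂ) ^ (s / 2) *
    ((2 * (Real.pi : ℂ)) ^ (-s) * Gamma s) ^ Module.finrank ℚ K * EulerL M s

/-! ### Elliptic curves over `ℚ` and abelian number fields -/

/-- The coefficient `a_p` of `E : y² = x³ + a x + b` at a prime `p ∤ 2 (4a³ + 27b²)`: `p` minus the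
number of pairs `(x, y)` modulo `p` with `y² ≡ x³ + a x + b (mod p)`. -/
noncomputable def ap (a b : ℤ) (p : ℕ) : ℤ :=
  (p : ℤ) - (((Finset.range p ×ˢ Finset.range p).filter
    (fun xy : ℕ × ℕ => (p : ℤ) ∣ (xy.2 : ℤ) ^ 2 -
      ((xy.1 : ℤ) ^ 3 + a * (xy.1 : ℤ) + b))).card : ℤ)

/-- The `n`-th Fourier coefficient of `f`. -/
noncomputable def coef {N : ℕ} (f : CuspForm (Gamma0 N : Subgroup (GL (Fin 2) ℝ)) 2) (n : ℕ) : ℂ :=
  (qExpansion 1 f).coeff n

/-- `f ∈ S_2(Γ₀(N))` is the newform of the elliptic curve `E : y² = x³ + a x + b` of conductor `N` and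
root number `w`: the Fourier coefficients `c(n)` of `f` are real with `c(1) = 1`, they satisfy the
Hecke relations `c(mn) = c(m) c(n)` for coprime `m`, `n` and `c(p^(j+2)) = c(p) c(p^(j+1)) - p c(p^j)`
(without the last term if `p ∣ N`), `f(-1/(Nτ)) = -w N τ² f(τ)`, `c(p) = a_p(E)` for all primes
`p ∤ 2 (4a³ + 27b²)`, `|c(p)| ≤ 2 √p` for all `p ∤ N` (Hasse) and `c(p) = 0, 1, -1` for `p ∣ N`. -/
structure IsFormOf (a b : ℤ) (N : ℕ) (f : CuspForm (Gamma0 N : Subgroup (GL (Fin 2) ℝ)) 2) (w : ℝ) :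
    Prop where
  one : coef f 1 = 1
  real : ∀ n, (coef f n).im = 0
  mul : ∀ m n : ℕ, Nat.Coprime m n → coef f (m * n) = coef f m * coef f n
  pow : ∀ p j : ℕ, p.Prime → coef f (p ^ (j + 2)) = coef f p * coef f (p ^ (j + 1)) -
      (if p ∣ N then 0 else (p : ℂ) * coef f (p ^ j))
  sign : w = 1 ∨ w = -1
  fricke : ∀ τ τ' : ℍ, (τ' : ℂ) * ((N : ℂ) * (τ : ℂ)) = -1 →
    f τ' = -(w : ℂ) * (N : ℂ) * (τ : ℂ) ^ 2 * f τ
  points : ∀ p : ℕ, p.Prime → ¬ (p : ℤ) ∣ 2 * (4 * a ^ 3 + 27 * b ^ 2) → coef f p = (ap a b p : ℂ)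
  good : ∀ p : ℕ, p.Prime → ¬ p ∣ N → ‖coef f p‖ ≤ 2 * Real.sqrt p
  bad : ∀ p : ℕ, p.Prime → p ∣ N → coef f p = 0 ∨ coef f p = 1 ∨ coef f p = -1

/-- The Dirichlet series of the twist of `E` by `χ` modulo `q`: `∑ c(n) χ(n) n^(-s)`. -/
noncomputable def series {N : ℕ} (f : CuspForm (Gamma0 N : Subgroup (GL (Fin 2) ℝ)) 2) {q : ℕ}
    (χ : DirichletCharacter ℂ q) (s : ℂ) : ℂ :=
  ∑' n : ℕ, coef f (n + 1) * χ ((n + 1 : ℕ) : ZMod q) * ((n + 1 : ℕ) : ℂ) ^ (-s)

/-- The completed L-function of the twist of `E` by `χ` modulo `q`, for `Re s > 3/2`: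
`(√N q / 2π)^s Γ(s) ∑ c(n) χ(n) n^(-s)`. -/
noncomputable def twist {N : ℕ} (f : CuspForm (Gamma0 N : Subgroup (GL (Fin 2) ℝ)) 2) {q : ℕ}
    (χ : DirichletCharacter ℂ q) (s : ℂ) : ℂ :=
  ((Real.sqrt N * q / (2 * Real.pi) : ℝ) : ℂ) ^ s * Complex.Gamma s * series f χ s

section
variable {M : ℕ} (G : Subgroup (DirichletCharacter ℂ M)) [Fintype G]

/-- `Λ = Λ(E/K, s)`, where `K` is the abelian number field with the group `G` of Dirichlet
characters: `Λ` is entire and, for large real part, it is the product over `χ` in `G` of the completed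
L-functions of the twists of `E` by the primitive character associated with `χ`. -/
def IsCompleted {N : ℕ} (f : CuspForm (Gamma0 N : Subgroup (GL (Fin 2) ℝ)) 2) (Λ : ℂ → ℂ) : Prop :=
  Differentiable ℂ Λ ∧ ∃ σ : ℝ, ∀ s : ℂ, σ ≤ s.re →
    Λ s = ∏ χ : G, twist f (χ : DirichletCharacter ℂ M).primitiveCharacter s

/-- The conductor `A = ∏ N f_χ² = N^[K : ℚ] disc(K)²` of `L(E/K, s)`. -/
noncomputable def condA (N : ℕ) : ℝ :=
  ∏ χ : G, ((N : ℝ) * ((χ : DirichletCharacter ℂ M).conductor : ℝ) ^ 2)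

end

/-! ### The L-functions of the theorem -/

/-- `L` and `Λ` are the L-function (in the half-plane of convergence) and the completed L-function of an elliptic curve
over a number field of degree `d`, with the properties conjectured by Hasse and Weil; `A` is the conductor. -/
def OverField (d : ℕ) (A : ℝ) (L Λ : ℂ → ℂ) : Prop :=
  ∃ (K : Type) (_ : Field K) (_ : NumberField K) (E : WeierstrassCurve K) (_ : E.IsElliptic)
    (M : HeightOneSpectrum (𝓞 K) → WeierstrassCurve (𝓞 K)),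
    Module.finrank ℚ K = d ∧ MinimalModels E M ∧ HasseWeil M A Λ ∧ L = EulerL M

/-- `L` and `Λ` are the L-function (in the half-plane of convergence) and the completed L-function of an elliptic curve
`y² = x³ + a x + b` over `ℚ` of conductor `N`, over an abelian number field of degree `d` and conductor prime to `N`;
`A` is the conductor. -/
def OverAbelian (d : ℕ) (A : ℝ) (L Λ : ℂ → ℂ) : Prop :=
  ∃ (a b : ℤ) (N : ℕ) (_ : NeZero N) (f : CuspForm (Gamma0 N : Subgroup (GL (Fin 2) ℝ)) 2) (w : ℝ)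
    (M : ℕ) (_ : NeZero M) (G : Subgroup (DirichletCharacter ℂ M)) (_ : Fintype G),
    4 * a ^ 3 + 27 * b ^ 2 ≠ 0 ∧ IsFormOf a b N f w ∧ Nat.Coprime M N ∧ Fintype.card G = d ∧
      A = condA G N ∧ IsCompleted G f Λ ∧ L = fun s => ∏ χ : G, series f (χ : DirichletCharacter ℂ M).primitiveCharacter s

/-- `Ξ(z) = Λ(1 + i z)`. -/
noncomputable def Xi (Λ : ℂ → ℂ) (z : ℂ) : ℂ := Λ (1 + I * z)

lemma toKL {K : Type} [Field K] [NumberField K] {M : HeightOneSpectrum (𝓞 K) → WeierstrassCurve (𝓞 K)} {A : ℝ}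
    {Λ : ℂ → ℂ} (h : HasseWeil M A Λ) : ∃ a δ : HeightOneSpectrum (𝓞 K) → ℝ,
      (∀ v, δ v = 0 ∨ δ v = Pool.Agent.H921R2.TatePole.nm v) ∧
      Pool.Agent.TH839.UH.KL (fun v => (a v : ℂ)) (fun v => (δ v : ℂ)) A Λ ∧
      ∀ s, EulerL M s = Pool.Agent.TH839.UH.EL (fun v => (a v : ℂ)) (fun v => (δ v : ℂ)) s := by
  classical
  obtain ⟨a, ha⟩ : ∃ a : HeightOneSpectrum (𝓞 K) → ℝ, a = fun v => ((Ideal.absNorm v.asIdeal : ℝ)
          - (Nat.card {xy : (𝓞 K ⧸ v.asIdeal) × (𝓞 K ⧸ v.asIdeal) //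
            ((M v).map (Ideal.Quotient.mk v.asIdeal)).toAffine.Equation xy.1 xy.2} : ℝ)) := ⟨_, rfl⟩
  obtain ⟨δ, hδ⟩ : ∃ δ : HeightOneSpectrum (𝓞 K) → ℝ, δ = fun v =>
      if (M v).Δ ∈ v.asIdeal then 0 else (Ideal.absNorm v.asIdeal : ℝ) := ⟨_, rfl⟩
  have hac : ∀ v, ((a v : ℝ) : ℂ) = ((Ideal.absNorm v.asIdeal : ℂ)
          - (Nat.card {xy : (𝓞 K ⧸ v.asIdeal) × (𝓞 K ⧸ v.asIdeal) //
            ((M v).map (Ideal.Quotient.mk v.asIdeal)).toAffine.Equation xy.1 xy.2} : ℂ)) := fun v => by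
    rw [ha]
    push_cast
    rfl
  have hδc : ∀ v, ((δ v : ℝ) : ℂ) = if (M v).Δ ∈ v.asIdeal then 0 else (Ideal.absNorm v.asIdeal : ℂ) := fun v => by
    rw [hδ]
    show (((if (M v).Δ ∈ v.asIdeal then 0 else (Ideal.absNorm v.asIdeal : ℝ)) : ℝ) : ℂ) = _
    split_ifs
    · rw [Complex.ofReal_zero]
    · rw [Complex.ofReal_natCast]
  have hE : ∀ s, EulerL M s = Pool.Agent.TH839.UH.EL (fun v => (a v : ℂ)) (fun v => (δ v : ℂ)) s := by
    intro s
    unfold EulerL Pool.Agent.TH839.UH.EL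
    refine tprod_congr fun v => ?_
    unfold localFactor Pool.Agent.TH839.UH.NF.gv Pool.Agent.H921R2.TatePole.nm
    simp only [hac, hδc]
    congr 1
    ring
  refine ⟨a, δ, fun v => ?_, ⟨fun v => ?_, fun v => ?_, fun v => Complex.conj_ofReal _, fun v => Complex.conj_ofReal _,
    h.one_le, h.entire, h.order, h.fe, ?_⟩, hE⟩
  · rw [hδ]
    show (if (M v).Δ ∈ v.asIdeal then 0 else (Ideal.absNorm v.asIdeal : ℝ)) = 0 ∨
      (if (M v).Δ ∈ v.asIdeal then 0 else (Ideal.absNorm v.asIdeal : ℝ)) = _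
    split_ifs
    · exact Or.inl rfl
    · exact Or.inr rfl
  · show ‖((a v : ℝ) : ℂ)‖ ≤ _
    rw [hac]
    exact Pool.Agent.TH839.UH.trace_le v _
  · show ‖((δ v : ℝ) : ℂ)‖ ≤ ((Ideal.absNorm v.asIdeal : ℕ) : ℝ)
    rw [hδc]
    split_ifs
    · rw [norm_zero]
      exact Nat.cast_nonneg _
    · rw [Complex.norm_natCast]
  · obtain ⟨σ, hσ⟩ := h.eq
    refine ⟨σ, fun s hs => ?_⟩
    rw [hσ s hs, hE]

lemma toForm {a b : ℤ} {N : ℕ} {f : CuspForm (Gamma0 N : Subgroup (GL (Fin 2) ℝ)) 2} {w : ℝ}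
    (hf : IsFormOf a b N f w) : Pool.Agent.Run7.h114.CA.AB.IsForm N f w where
  one := hf.one
  real := hf.real
  mul := hf.mul
  pow := hf.pow
  sign := hf.sign
  fricke := hf.fricke
  good := hf.good
  bad := fun p hp hpN => by
    have h1 : (1 : ℝ) ≤ Real.sqrt p := by
      rw [Real.one_le_sqrt]
      exact_mod_cast hp.one_le
    have h2 : ‖coef f p‖ ≤ 1 := by
      rcases hf.bad p hp hpN with h | h | h <;> simp [h]
    exact h2.trans h1

/-- the data of the proof -/
lemma toDt {d : ℕ} {A : ℝ} {L Λ : ℂ → ℂ} (h : OverField d A L Λ ∨ OverAbelian d A L Λ) :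
    (∃ LL : Y23.G.LFun, Pool.Agent.Run7.h114.CA.TD.Dt LL d A Λ L) ∧
      ((∀ s, Λ (2 - s) = Λ s) ∨ ∀ s, Λ (2 - s) = -Λ s) := by
  rcases h with ⟨K, _, _, E, _, M, rfl, _, h, rfl⟩ | ⟨a, b, N, _, f, w, M, _, G, _, _, hf, hco, rfl, rfl, h, rfl⟩
  · obtain ⟨a, δ, h1, h2, h3⟩ := toKL h
    obtain ⟨L, hD⟩ := Pool.Agent.Run7.h114.CA.KF.dt_of_KL h1 h2
    have hev : ∀ s : ℂ, 3 < s.re → EulerL M s =
        (fun s => Λ s / ((A : ℂ) ^ (s / 2) * ((2 * (Real.pi : ℂ)) ^ (-s) * Gamma s) ^ Module.finrank ℚ K)) s := by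
      intro s hs
      have hs' : (9 / 4 : ℝ) < s.re := by linarith
      show _ = Λ s / _
      rw [Pool.Agent.TH839.UH.KL.eq' h2 hs', h3]
      have hA : (A : ℂ) ≠ 0 := by
        have := h.one_le
        exact_mod_cast (by linarith : (0 : ℝ) < A).ne'
      have k1 : (A : ℂ) ^ (s / 2) ≠ 0 := by
        rw [Ne, Complex.cpow_eq_zero_iff]
        exact fun h => hA h.1
      have hpi : (2 * (Real.pi : ℂ)) ≠ 0 := by
        have := Real.pi_ne_zero
        simp [this]
      have k2 : (2 * (Real.pi : ℂ)) ^ (-s) ≠ 0 := by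
        rw [Ne, Complex.cpow_eq_zero_iff]
        exact fun h => hpi h.1
      have k3 : Gamma s ≠ 0 := Gamma_ne_zero_of_re_pos (by linarith)
      rw [mul_div_cancel_left₀ _ (mul_ne_zero k1 (pow_ne_zero _ (mul_ne_zero k2 k3)))]
    refine ⟨⟨L, hD.m, hD.N, hD.r, hD.X, hD.G, fun s hs => ?_⟩, ?_⟩
    · rw [hev s hs]
      exact hD.b s hs
    · obtain ⟨w, hw, hf⟩ := h.fe
      rcases hw with rfl | rfl
      · left
        intro s
        rw [hf s, Complex.ofReal_one, one_mul]
      · right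
        intro s
        rw [hf s, Complex.ofReal_neg, Complex.ofReal_one, neg_one_mul, neg_neg]
  · obtain ⟨⟨L, h1⟩, h2⟩ := Pool.Agent.Run7.h114.CA.AB.ab_dt G (toForm hf) hco h.1 h.2
    exact ⟨⟨L, h1⟩, h2⟩

/-- **The theorem.** (1) For `E/ℚ` over the abelian number fields of conductor prime to `N` the completed L-function
exists. (2) For all elliptic curves over number fields of degree `d` as above: the Riemann hypothesis for `L(E/K, s)` says
that all zeros of `Ξ` are real; there is a sequence `t` with `-L'/L(s) = ∑ t(n) n^(-s)`, unique for `n ≥ 1`; windows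
without zeros of `Ξ` exist; and for all of them the statement holds for `Ξ`, with degree `2 d` and conductor `A`, and for
Weil's forms `W d A t`. -/
theorem result :
    (∀ (a b : ℤ) (N : ℕ) [NeZero N] (f : CuspForm (Gamma0 N : Subgroup (GL (Fin 2) ℝ)) 2) (w : ℝ),
      IsFormOf a b N f w → ∀ (M : ℕ) [NeZero M] (G : Subgroup (DirichletCharacter ℂ M)) [Fintype G],
      Nat.Coprime M N → ∃ Λ : ℂ → ℂ, IsCompleted G f Λ) ∧
    ∀ (d : ℕ) (A : ℝ) (L Λ : ℂ → ℂ), (OverField d A L Λ ∨ OverAbelian d A L Λ) →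
      ((∀ s : ℂ, Λ s = 0 → s.re = 1) ↔ RealZeros (Xi Λ)) ∧
      (∃ t : ℕ → ℂ, IsLogDer L t ∧ ∀ t' : ℕ → ℂ, IsLogDer L t' → ∀ n : ℕ, n ≠ 0 → t' n = t n) ∧
      (∃ S : Set ℝ, Window S ∧ ∀ x : ℝ, x ∈ S → Xi Λ x ≠ 0) ∧
      ∀ t : ℕ → ℂ, IsLogDer L t → ∀ S : Set ℝ, Window S → (∀ x : ℝ, x ∈ S → Xi Λ x ≠ 0) →
        Full (Xi Λ) (2 * d) A (W d A t) S := by
  refine ⟨fun a b N _ f w hf M _ G _ hco => ?_, fun d A L Λ h => ?_⟩
  · obtain ⟨Λ, h1, h2⟩ := Pool.Agent.Run7.h114.CA.AB.ab_exists G (toForm hf) hco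
    exact ⟨Λ, h1, h2⟩
  obtain ⟨⟨LL, hD'⟩, hfe⟩ := toDt h
  obtain ⟨hwin, hmain⟩ := hD'.main hfe
  refine ⟨?_, ⟨_, hD'.logDer, fun t' ht' n hn => ht'.unique hD'.logDer hn⟩, hwin, hmain⟩
  constructor
  · intro h z hz
    have h1 := h _ hz
    rw [Complex.add_re, Complex.one_re, Complex.I_mul_re] at h1
    linarith
  · intro h s hs
    have e2 : (1 : ℂ) + I * (-I * (s - 1)) = s := by linear_combination (-(s - 1)) * Complex.I_mul_I
    have h1 := h (-I * (s - 1)) (by
      unfold Xi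
      rw [e2]
      exact hs)
    simp at h1
    linarith

end Pool.Agent.Results.MP_fb225e_nt.GroundStatesConverge
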