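import Pool.Agent.Run7.h328.SEP.SumsEC
import Pool.Agent.Run7.h328.SEP.One

/-!
# Square-root cancellation for almost all curves `y² = x³ + a x + (b + t)` over a number field, with arbitrary weights

`K` is an arbitrary number field of degree `d`, and `a`, `b` are arbitrary integers of `K` (for rational integers `a`, `b`
the curves are the base changes to `K` of curves over `ℚ`).  Consider the curves

`E_t : y² = x³ + a x + (b + t)`, `t` a rational integer, `|t| ≤ H`.

If `L(E/K, s)` has its analytic continuation and functional equation, the Riemann hypothesis for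
`L(E/K, s)` is equivalent to the bound `∑_{N v ≤ x} a_v N v ^ (-1/2) ≪ x ^ (1/2 + ε)` for all `x`.  We show that, for all but at most `(2 H + 1) H ^ (-ε/500)` of the
`t`, this bound holds for all `x` between a power of `log H` and `H ^ (ε/200)`, together with all its twists:

`|∑_{N v ≤ x} w(v) a_v N v ^ (-1/2 - i τ)| ≤ C (x ^ (1/2 + ε) + (log H) ^ (4/ε))` for all `x ≤ H ^ (ε/200)`, `|τ| ≤ H ^ (ε/200)`

and all `w` in a given finite set of at most `H ^ (ε/500)` arbitrary functions `w` on the primes of `K` with `|w(v)| ≤ 1`, at the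
same time.  The constant `C` depends on the degree `d` of `K` only, and `H₀` on `d` and `ε`; they are free of the field `K`, of
`a` and `b`, and of the weights.  For example `w` runs over the Hecke characters of finite order with small conductor, or over
`a_v(E') / (2 √N v)` for fixed curves `E'` (the Rankin-Selberg coefficients of `E_t` and `E'`).

Proof.  The residues of `t` modulo the square-free numbers up to a power of `H` are uniformly distributed.  The trace of Frobenius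
of `E_t` at a prime of `K` of degree one, as a function of `t` modulo the prime number below, has mean value zero.  Hence the `2 j`-th
moment of the sum over the prime numbers in `(y, 2 y]`, for `j` about `log H / log y`, is at most `(C j y) ^ j`, which gives the
bound outside `H ^ (1 - ε/20)` of the `t`.  We take the union over all `x` and over a grid of `τ` and sum over dyadic
intervals.
-/

set_option autoImplicit false

open NumberField IsDedekindDomain Filter

namespace Pool.Agent.Results.MP_fb225e_nt.SquareRootCancellation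

section
variable {K : Type} [Field K] [NumberField K]

/-- `M v` is, for every `v`, an integral model of `E` with discriminant minimal at `v`. -/
def MinimalModels (E : WeierstrassCurve K) (M : HeightOneSpectrum (𝓞 K) → WeierstrassCurve (𝓞 K)) : Prop :=
  ∀ v : HeightOneSpectrum (𝓞 K),
    (∃ C : WeierstrassCurve.VariableChange K, C • E = (M v).map (algebraMap (𝓞 K) K)) ∧
    ∀ W : WeierstrassCurve (𝓞 K),
      (∃ C : WeierstrassCurve.VariableChange K, C • E = W.map (algebraMap (𝓞 K) K)) →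
        ∀ n : ℕ, (M v).Δ ∈ v.asIdeal ^ n → W.Δ ∈ v.asIdeal ^ n

/-- The coefficient `a_v`: `N v` minus the number of the affine points of the reduction of the model `M v`. -/
noncomputable def coeff (M : HeightOneSpectrum (𝓞 K) → WeierstrassCurve (𝓞 K)) (v : HeightOneSpectrum (𝓞 K)) : ℤ :=
  ((Ideal.absNorm v.asIdeal : ℕ) : ℤ) -
    ((Nat.card {p : (𝓞 K ⧸ v.asIdeal) × (𝓞 K ⧸ v.asIdeal) //
      p.2 ^ 2 + Ideal.Quotient.mk v.asIdeal (M v).a₁ * p.1 * p.2
        + Ideal.Quotient.mk v.asIdeal (M v).a₃ * p.2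
      = p.1 ^ 3 + Ideal.Quotient.mk v.asIdeal (M v).a₂ * p.1 ^ 2
        + Ideal.Quotient.mk v.asIdeal (M v).a₄ * p.1
        + Ideal.Quotient.mk v.asIdeal (M v).a₆} : ℕ) : ℤ)

/-- `∑_{N v ≤ x} w(v) a_v N v ^ (-1/2 - i τ)`. -/
noncomputable def primeSum (M : HeightOneSpectrum (𝓞 K) → WeierstrassCurve (𝓞 K))
    (w : HeightOneSpectrum (𝓞 K) → ℂ) (x : ℕ) (τ : ℝ) : ℂ :=
  ∑' v : HeightOneSpectrum (𝓞 K), if Ideal.absNorm v.asIdeal ≤ x then
    w v * (coeff M v : ℂ) * ((Ideal.absNorm v.asIdeal : ℕ) : ℂ) ^ (-(1 / 2 + τ * Complex.I) : ℂ) else 0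

/-- The curve `y² = x³ + a x + (b + t)`. -/
noncomputable def curve (a b : 𝓞 K) (t : ℤ) : WeierstrassCurve K where
  a₁ := 0
  a₂ := 0
  a₃ := 0
  a₄ := (a : K)
  a₆ := ((b + (t : 𝓞 K) : 𝓞 K) : K)

end

open Run7.h328.SEP in
lemma primeSum_eq {K : Type} [Field K] [NumberField K] (M : HeightOneSpectrum (𝓞 K) → WeierstrassCurve (𝓞 K))
    (w : HeightOneSpectrum (𝓞 K) → ℂ) (x : ℕ) (τ : ℝ) :
    primeSum M w x τ = ∑' v : HeightOneSpectrum (𝓞 K),
      if Pool.Agent.H921R2.TatePole.nm v ≤ x then w v * tv M τ v else 0 := by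
  unfold primeSum
  refine tsum_congr fun v => ?_
  by_cases h : Ideal.absNorm v.asIdeal ≤ x
  · have h' : Pool.Agent.H921R2.TatePole.nm v ≤ x := h
    have h2 : coeff M v = Pool.Agent.H341R2.EC.trc M v := rfl
    rw [if_pos h, if_pos h', h2, mul_assoc]
    rfl
  · have h' : ¬ Pool.Agent.H921R2.TatePole.nm v ≤ x := h
    rw [if_neg h, if_neg h']

open Run7.h328.SEP in
theorem result (d : ℕ) : ∃ C : ℝ, 0 < C ∧ ∀ ε : ℝ, 0 < ε → ε ≤ 1 → ∃ H₀ : ℕ, ∀ H : ℕ, H₀ ≤ H →
    ∀ (K : Type) [Field K] [NumberField K], Module.finrank ℚ K = d → ∀ a b : 𝓞 K,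
    ∀ W : Finset (HeightOneSpectrum (𝓞 K) → ℂ), (W.card : ℝ) ≤ (H : ℝ) ^ (ε / 500) → (∀ w ∈ W, ∀ v, ‖w v‖ ≤ 1) →
    ∃ X ⊆ Finset.Icc (-(H : ℤ)) H, (X.card : ℝ) ≤ (H : ℝ) ^ (-(ε / 500)) * (2 * H + 1) ∧
      ∀ t ∈ Finset.Icc (-(H : ℤ)) H \ X, ∀ M : HeightOneSpectrum (𝓞 K) → WeierstrassCurve (𝓞 K),
        MinimalModels (curve a b t) M → ∀ w ∈ W, ∀ (x : ℕ) (τ : ℝ),
          (x : ℝ) ≤ (H : ℝ) ^ (ε / 200) → |τ| ≤ (H : ℝ) ^ (ε / 200) →
            ‖primeSum M w x τ‖ ≤ C * ((x : ℝ) ^ (1 / 2 + ε) + Real.log H ^ (4 / ε)) := by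
  obtain ⟨C, hC, h1⟩ := sums_ec_w 1 d 2 (by norm_num) 5
  refine ⟨C, hC, fun ε hε hε1 => ?_⟩
  obtain ⟨H₀, h2⟩ := eventually_atTop.mp (h1 ε hε hε1)
  refine ⟨H₀, fun H hH K _ _ hK a b W hWc hW => ?_⟩
  obtain ⟨Ex, hE1, hE2, hE3⟩ := h2 H hH K hK Unit (by simp) (S1 a b) (D1 a b) (trFam_one a b) W hW hWc
  obtain ⟨X, hX1, hX2, hX3⟩ := box_one H Ex hE1 _ hE2
  refine ⟨X, hX1, hX2, fun t ht M hM w hw x τ hx hτ => ?_⟩
  rw [primeSum_eq]
  refine hE3 (fun _ => t) (hX3 t ht) M ?_ w hw x hx τ hτ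
  intro p hp h5 φ hD
  have e : φ (b + (t : 𝓞 K)) = φ b + Pool.Agent.Y722.HS.red (p : ℕ) (fun _ : Unit => t) () := by
    rw [map_add, map_intCast]
    rfl
  have h1 := Pool.Agent.N534.EC.trc_short a (b + (t : 𝓞 K)) (curve a b t) rfl M hM p h5 φ (by
    rw [e]
    exact hD)
  rw [h1, e]
  unfold S1
  push_cast
  rfl

end Pool.Agent.Results.MP_fb225e_nt.SquareRootCancellation
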